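import Pool.Agent.Y466.TQ.Stm

/-!
Job TQ-MIX (helper459): an explicit matrix.
-/

set_option autoImplicit false
set_option synthInstance.maxSize 100000

namespace Pool.Agent.Y459.TQ

open Matrix Pool.Agent.Y466.TQ

namespace MIXX

/-- the matrix of the mixed terms, as a table -/
def Ml : List (List ℤ) := [[0, 0, 0, 0, 0, -1, 0, 0, 0, 0, -1, -1, 0, 0, 0, -2],
  [0, 0, 0, 0, 1, 0, 0, 0, 0, 0, 0, 1, 0, 0, -1, 0],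
  [0, 0, 0, 0, 0, 0, 0, -1, 1, 0, 0, 0, 0, 1, 0, 0],
  [0, 0, 0, 0, 0, 0, 1, 0, 1, -1, 0, 0, 2, 0, 0, 0],
  [0, 1, 0, 0, 0, 0, 0, 0, 0, 0, 0, -1, 0, -1, 1, 0],
  [-1, 0, 0, 0, 0, 0, 0, 0, 0, 0, -1, 0, 1, 0, 0, -2],
  [0, 0, 0, 1, 0, 0, 0, 0, 0, 1, 0, 0, -1, 0, 0, 0],
  [0, 0, -1, 0, 0, 0, 0, 0, 1, 0, 0, 0, 0, 2, 0, 0],
  [0, 0, 1, 1, 0, 0, 0, 1, 0, 0, 0, 0, 0, -1, 0, -1],
  [0, 0, 0, -1, 0, 0, 1, 0, 0, 0, 0, 0, 1, 0, -1, 0],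
  [-1, 0, 0, 0, 0, -1, 0, 0, 0, 0, 0, 0, 0, 1, 0, -2],
  [-1, 1, 0, 0, -1, 0, 0, 0, 0, 0, 0, 0, 1, 0, 2, 0],
  [0, 0, 0, 2, 0, 1, -1, 0, 0, 1, 0, 1, 0, 0, 0, 0],
  [0, 0, 1, 0, -1, 0, 0, 2, -1, 0, 1, 0, 0, 0, 0, 0],
  [0, -1, 0, 0, 1, 0, 0, 0, 0, -1, 0, 2, 0, 0, 0, 0],
  [-2, 0, 0, 0, 0, -2, 0, 0, -1, 0, -2, 0, 0, 0, 0, 0]]

/-- its inverse -/
def Xl : List (List ℤ) := [[2, 8, -2, 4, -7, 3, 5, -3, -4, -9, -3, 3, -5, 1, -4, -2],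
  [8, 68, -20, 34, -62, 29, 42, -25, -30, -80, -22, 25, -46, 5, -38, -16],
  [-2, -20, 8, -10, 20, -8, -12, 7, 8, 24, 6, -8, 14, 0, 12, 5],
  [4, 34, -10, 18, -31, 15, 22, -13, -16, -41, -11, 12, -23, 3, -19, -8],
  [-7, -62, 20, -31, 60, -26, -38, 23, 26, 74, 20, -24, 43, -3, 36, 15],
  [3, 29, -8, 15, -26, 14, 19, -11, -14, -35, -10, 10, -20, 3, -16, -7],
  [5, 42, -12, 22, -38, 19, 28, -16, -20, -50, -14, 15, -29, 4, -23, -10],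
  [-3, -25, 7, -13, 23, -11, -16, 10, 12, 30, 8, -9, 17, -2, 14, 6],
  [-4, -30, 8, -16, 26, -14, -20, 12, 16, 36, 10, -10, 20, -4, 16, 7],
  [-9, -80, 24, -41, 74, -35, -50, 30, 36, 96, 26, -29, 55, -6, 45, 19],
  [-3, -22, 6, -11, 20, -10, -14, 8, 10, 26, 8, -8, 15, -2, 12, 5],
  [3, 25, -8, 12, -24, 10, 15, -9, -10, -29, -8, 10, -17, 1, -14, -6],
  [-5, -46, 14, -23, 43, -20, -29, 17, 20, 55, 15, -17, 32, -3, 26, 11],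
  [1, 5, 0, 3, -3, 3, 4, -2, -4, -6, -2, 1, -3, 2, -2, -1],
  [-4, -38, 12, -19, 36, -16, -23, 14, 16, 45, 12, -14, 26, -2, 22, 9],
  [-2, -16, 5, -8, 15, -7, -10, 6, 7, 19, 5, -6, 11, -1, 9, 4]]

/-- the basis of the positive part -/
def Ql : List (List ℤ) := [[1, -1, 1, -1, -1, -1, -1, 3, -1, 3, 2, -2],
  [1, 1, -1, 1, 0, 1, 1, -3, 0, 9, -8, -16],
  [0, 3, 0, 0, 0, 0, -7, 4, 0, 8, 3, 5],
  [0, -3, 1, 0, 0, 2, -3, -8, 0, 8, -4, -8],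
  [0, -1, 1, 2, 0, -1, -1, 3, 0, 3, 9, 15],
  [-1, 1, -1, 1, 1, 1, 1, -3, -1, 9, -1, -7],
  [0, -4, 0, 0, 0, 6, -4, -5, 0, 11, -2, -10],
  [0, 0, 0, 0, 0, 0, 10, 4, 0, -4, 2, 6],
  [0, 10, 0, 0, 0, 0, 10, 4, 0, -16, 1, 7],
  [0, 0, 0, 0, 0, 0, 0, 17, 0, -11, 9, 19],
  [-1, -2, 2, 1, 0, -2, -2, 6, 1, -6, 3, 5],
  [2, 1, -1, -2, 0, 1, 1, -3, 0, -3, -2, -6],
  [0, -3, 3, 0, 0, -3, -3, 9, 0, -3, 5, 11],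
  [0, 0, 0, 0, 0, 0, 0, 0, 0, 12, 1, -1],
  [0, 0, 0, 0, 0, 0, 0, 0, 0, 0, 7, 9],
  [0, 0, 0, 0, 0, 0, 0, 0, 0, 0, 0, 4]]

/-- the product of the second matrix with the first one -/
def Nl : List (List ℤ) := [[0, 2, 0, 0, -1, 0, 0, 0, 0, 0, 0, 0, 1, -1, 3, 2],
  [0, 0, 10, 0, 0, 0, 0, 7, 0, -4, 0, 0, 0, -8, 0, -6],
  [0, 0, 0, 6, 0, 0, -2, 0, 1, 2, 0, 0, 0, 1, 0, -4],
  [0, 0, 0, 0, 3, 0, 0, 0, 0, 0, 0, 0, -1, -1, -3, -2],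
  [-1, 0, 0, 0, 0, 1, 0, 0, 0, 0, 0, 1, 1, 0, 0, 0],
  [0, 0, 0, 0, 0, 0, 5, 0, 2, 1, 0, 0, 0, -1, 0, 4],
  [0, 0, 0, 0, 0, 0, 0, 17, 0, -4, 0, 0, 0, 2, 0, -6],
  [0, 0, 0, 0, 0, 0, 0, 0, 0, 12, 0, 0, 0, 11, -17, -16],
  [0, 0, 0, 0, 0, 0, 0, 0, 0, 0, 2, 1, -1, 1, 0, 2],
  [0, 0, 0, 0, 0, 0, 0, 0, 0, 0, 0, 0, 0, 7, -1, 4],
  [0, 0, 0, 0, 0, 0, 0, 0, 0, 0, 0, 0, 0, 0, 4, -9],
  [0, 0, 0, 0, 0, 0, 0, 0, 0, 0, 0, 0, 0, 0, 0, 1]]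

/-- entry of a table -/
def ent (L : List (List ℤ)) (i j : ℕ) : ℤ := (L.getD i []).getD j 0

theorem c4_eq : ∀ p q : Fin 4 × Fin 4,
    -c4 p.1 q.1 p.2 q.2 = ent Ml (4 * p.1.val + p.2.val) (4 * q.1.val + q.2.val) := by
  decide +kernel

theorem M_eq (p q : Fin 4 × Fin 4) :
    M p q = ent Ml (4 * p.1.val + p.2.val) (4 * q.1.val + q.2.val) := c4_eq p q

/-- the inverse -/
def XX : Matrix (Fin 4 × Fin 4) (Fin 4 × Fin 4) ℤ :=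
  Matrix.of fun p q => ent Xl (4 * p.1.val + p.2.val) (4 * q.1.val + q.2.val)

/-- the basis -/
def QQ : Matrix (Fin 4 × Fin 4) (Fin 12) ℤ :=
  Matrix.of fun p j => ent Ql (4 * p.1.val + p.2.val) j.val

theorem XX_apply (p q : Fin 4 × Fin 4) :
    XX p q = ent Xl (4 * p.1.val + p.2.val) (4 * q.1.val + q.2.val) := rfl

theorem QQ_apply (p : Fin 4 × Fin 4) (j : Fin 12) :
    QQ p j = ent Ql (4 * p.1.val + p.2.val) j.val := rfl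

theorem inv_eq : ∀ p q : Fin 4 × Fin 4, ∑ r : Fin 4 × Fin 4,
    ent Ml (4 * p.1.val + p.2.val) (4 * r.1.val + r.2.val) *
      ent Xl (4 * r.1.val + r.2.val) (4 * q.1.val + q.2.val) = if p = q then 1 else 0 := by
  decide +kernel

theorem N_eq : ∀ (i : Fin 12) (q : Fin 4 × Fin 4), ∑ r : Fin 4 × Fin 4,
    ent Ql (4 * r.1.val + r.2.val) i.val *
      ent Ml (4 * r.1.val + r.2.val) (4 * q.1.val + q.2.val) =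
      ent Nl i.val (4 * q.1.val + q.2.val) := by
  decide +kernel

theorem D_eq : ∀ (i j : Fin 12), ∑ r : Fin 4 × Fin 4,
    ent Nl i.val (4 * r.1.val + r.2.val) * ent Ql (4 * r.1.val + r.2.val) j.val =
      if i = j then ([2, 30, 6, 6, 2, 30, 170, 204, 2, 84, 28, 4] : List ℤ).getD i.val 0 else 0 := by
  decide +kernel

end MIXX

open MIXX in
theorem mix : MIX := by
  refine ⟨⟨XX, ?_⟩, QQ, fun i => ([2, 30, 6, 6, 2, 30, 170, 204, 2, 84, 28, 4] : List ℤ).getD i.val 0, by decide +kernel, ?_⟩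
  · ext p q
    rw [Matrix.mul_apply, Matrix.one_apply, ← inv_eq p q]
    exact Finset.sum_congr rfl fun r _ => by rw [M_eq, XX_apply]
  · ext i j
    rw [Matrix.mul_apply, Matrix.diagonal_apply, ← D_eq i j]
    refine Finset.sum_congr rfl fun r _ => ?_
    rw [Matrix.mul_apply, ← N_eq i r, QQ_apply]
    congr 1
    refine Finset.sum_congr rfl fun s _ => ?_
    rw [M_eq, Matrix.transpose_apply, QQ_apply]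

end Pool.Agent.Y459.TQ
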